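import Pool.Agent.H92.BiaV

/-!
# The 2-part of the formula of Birch and Swinnerton-Dyer over abelian extensions: a theorem of Ramsey type

`K` is an imaginary quadratic field of class number one, and `E_i : y² = x³ + a_i x + b_i`, `i = 1, …, m`, are elliptic
curves over `K` without `K`-rational points of order two, not necessarily `ℚ`-curves or base changes from `ℚ`, with
Bianchi newforms `f_i` of weight two: `L(E_i/K, s) = L(f_i, s)`.  Suppose that `L(E_i/K, 1) ≠ 0` and that the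
`2`-Selmer groups of the `E_i/K` are trivial.  A place `v ∤ 2(4a_i³ + 27b_i²)` of `K` is admissible if the
`x³ + a_i x + b_i` have no roots modulo `v`.  The characters `χ` are those of `K` (of `Gal(K^ab/K)`) whose order divides
`2^e` and whose conductor is a product of different admissible places; `e` is arbitrary.

Theorem.  Every infinite group `𝒢` of such characters has an infinite subgroup `ℋ`, stable under any given finite group
`Δ` of automorphisms of `𝒢`, with the following properties for all `i` (`Exact`).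
* For all `χ ∈ ℋ` the function `L(E_i ⊗ χ, s)` is entire, and `τ L(E_i ⊗ χ, 1) = u L(E_i/K, 1) ≠ 0`, where `τ` is an
  algebraic integer with `|τ|² = N(cond χ)` (a Gauss sum) and `u` is a unit at all the primes above `2`.
* For all the class fields `F` of finite subgroups of `ℋ`, in which the places `v ∣ 2(4a_i³ + 27b_i²)` split
  completely, `L(E_i/F, s)` is entire, and `τ L(E_i/F, 1) = u L(E_i/K, 1)^[F:K] ≠ 0`, where `|τ|² = N(d_{F/K})` (`d` the
  discriminant) and `u` is a unit at the primes above `2`; `E_i(F)` is finite of odd order, `Ш(E_i/F)[2^∞] = 0`.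
So the first part of the conjecture of Birch and Swinnerton-Dyer is true for the `E_i` over all these `F`, with both sides
zero, and the `2`-part of the exact formula for `L(E_i/F, 1)` is equivalent to the `2`-part of the formula for
`L(E_i/K, 1)`: the period of `E/F` is that of `E/K` to the power `[F:K]`, and `|d_F|^(1/2) = |d_K|^([F:K]/2) N(d_{F/K})^(1/2)`;
the Tamagawa numbers of `E/F` are those of `E/K`, each repeated `[F:K]` times (the bad places split completely, and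
places of good reduction stay good); and `E(F)`, `E(K)` have odd order and `Ш(E/F)`, `Ш(E/K)` have no elements of
order two.

More exactly: there are bounds `B(0) < B(1) < …`, which depend only on the `E_i`, on `e` and on the order of `Δ`, such
that from every sequence `χ_0, χ_1, …` in `𝒢` one gets elements of such an `ℋ` as products `∏_{j ∈ S_k} χ_j` over
certain nonempty sets `S_k` of indices in `[B(k), B(k + 1))`, `k ≥ 0`.  In particular, a finite group `𝒢` of more than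
`2^(e B(t))` characters has a subgroup `ℋ` of order at least `t`, and at most `2^B(1)` translates of the set of the
`χ ∈ 𝒢` with `τ L(E_i ⊗ χ, 1) = u L(E_i/K, 1)`, as above, for all `i` cover `𝒢`, so that this set has at least
`2^(-B(1)) #𝒢` elements if `𝒢` is finite.

In the library `BianchiTwoExtensions` has the same conclusions for all the `χ` and all the `F`, if the central value is
odd: `Φ(0)`, the value of the primitive at the cusp `0`, which is `L(E/K, 1)` up to an elementary factor, is not in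
`2 w Λ`, where `Λ ≅ ℤ` is the group of the values of `Φ` at the cusps and `w` is `2` or `4`.  If the `2`-Selmer group is
trivial the `2`-part of the number `Φ(0)/ω`, `Λ = ℤ ω`, should be, by the conjecture, that of the product of the Tamagawa
numbers, up to small factors; so one expects that this condition excludes the curves with an even Tamagawa number.
Here there is no condition on the central value but `L(E/K, 1) ≠ 0`; the price is that we do not get all the `χ`, but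
large groups and syndetic sets of them.  `BianchiRamsey` (problem `MP_ec4e4b_nt`) has only that the values are not zero.

The proof.  Let `Φ` be the primitive of the harmonic differential of `f = f_i`.  Up to the Gauss sum and an elementary
factor, `L(E ⊗ χ, 1)` is the sum `∑ conj χ(x) Φ(x/m)` over the `x` modulo the conductor `m`.  Let `R = ℤ[ζ]`,
`ζ = exp(2πi/2^e)`, `π = 1 - ζ`, and `Φ(0) = 2^a j ω`, `j` odd; `2^a R = π^N R` with `N = a 2^(e-1)`.  For a fixed
modulus, a multiple of the conductors, the sums are, as functions of `χ` modulo `π^(N+1) R ω`, polynomial maps of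
degree at most `N` from the group `𝒢` to a finite group, since `χ(x) ≡ 1 mod π`.  For polynomial maps to a finite group
there is a theorem of Ramsey type: they are constant on the multiples `∏_{j ∈ S} χ_j`, together with their images
under the elements of the group ring of `Δ`, for some nonempty `S` in any given set of sufficiently many indices
(`combI`, by induction on the degree and the pigeonhole principle).  So the sums for the elements of `ℋ` are
congruent modulo `π^(N+1) R ω` to that of `χ = 1`, which is an odd multiple of `Φ(0)`; a change of the modulus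
multiplies the sums by products of factors `c(v) - χ(v) - conj χ(v) ≡ c(v) mod π`, and `c(v)` is odd for the admissible `v`.
So the sum for `χ` is `2^a u ω` with `u ∈ R` not divisible by `π` (`ratio`, `bia_cong`).  The algebraic side is the descent in
Galois extensions of `2`-power degree of helper55 (`K4H55.CX.fin_up`).
-/

set_option autoImplicit false

open NumberField IsDedekindDomain Matrix Filter Topology
open scoped TensorProduct

namespace Pool.Agent.Results.MP_1a91b9_nt.BianchiExactRamsey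

/-- `K` is an imaginary quadratic field, `σ` is one of its two embeddings in `ℂ`, and `δ` generates the
different of `K`: an `x ∈ K` is in `𝓞` if and only if `Tr(x y / δ) ∈ ℤ` for all `y ∈ 𝓞`. -/
structure IsFieldData (K : Type) [Field K] [NumberField K] (σ : K →+* ℂ) (δ : K) : Prop where
  quadratic : Module.finrank ℚ K = 2
  imaginary : ∃ x, (starRingEnd ℂ) (σ x) ≠ σ x
  different : ∀ x : K, (∃ a : 𝓞 K, (a : K) = x) ↔
    ∀ y : 𝓞 K, ∃ m : ℤ, Algebra.trace ℚ K (x * y / δ) = m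

/-- `h(y) = ∫_0^∞ exp(-1/v - y v) dv = 2 y^(-1/2) K₁(2 √y)`, with the Bessel function `K₁`. -/
noncomputable def bessel (y : ℝ) : ℝ := ∫ v in Set.Ioi (0 : ℝ), Real.exp (-(1 / v) - y * v)

/-- The additive character `e(z) = exp(2πi (z/δ + conj (z/δ)))` of `ℂ`, trivial on `𝓞`. -/
noncomputable def addChar (δ z : ℂ) : ℂ :=
  Complex.exp (2 * Real.pi * Complex.I * (z / δ + (starRingEnd ℂ) (z / δ)))

/-- The denominator `|c z + d|² + |c|² t²` of the action of the matrix `(a, b; c, d)` on the hyperbolic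
space `{(z, t) : z ∈ ℂ, t > 0}`. -/
noncomputable def den (c d z : ℂ) (t : ℝ) : ℝ := ‖c * z + d‖ ^ 2 + ‖c‖ ^ 2 * t ^ 2

/-- The first coordinate `((a z + b) conj (c z + d) + a conj(c) t²) / (|c z + d|² + |c|² t²)` of the image
of `(z, t)` under the matrix `(a, b; c, d)`. -/
noncomputable def actZ (a b c d z : ℂ) (t : ℝ) : ℂ :=
  ((a * z + b) * (starRingEnd ℂ) (c * z + d) + a * (starRingEnd ℂ) c * (t : ℂ) ^ 2) /
    (den c d z t : ℂ)

/-- The second coordinate, for a matrix of determinant one; in general it is `|ad - bc|` times this. -/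
noncomputable def actT (c d z : ℂ) (t : ℝ) : ℝ := t / den c d z t

/-- `V_j(t, q) = α^j + β^j` for `α + β = t`, `α β = q`. -/
noncomputable def lucas (t q : ℂ) : ℕ → ℂ
  | 0 => 2
  | 1 => t
  | (j + 2) => t * lucas t q (j + 1) - q * lucas t q j

section field
variable {K : Type} [Field K] [NumberField K]

/-- The function `Φ(z, t) = ∑_{x ∈ 𝓞} c((x)) t² h(N(x) (2πt/|δ|)²) e(x z)
  = (|δ|/π) ∑_{x ≠ 0} (c((x))/|x|) t K₁(4π|x|t/|δ|) e(x z)` on the hyperbolic space, with the coefficients `c`.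
Up to a constant factor it is the primitive, zero at the cusp `∞`, of the harmonic differential of the
form of weight two with the Fourier coefficients `c`: its derivative by `t` is
`-4 ∑_{x ≠ 0} c((x)) t K₀(4π|x|t/|δ|) e(x z)`. -/
noncomputable def primitive (σ : K →+* ℂ) (δ : K) (c : Ideal (𝓞 K) → ℂ) (z : ℂ) (t : ℝ) : ℂ :=
  ∑' x : 𝓞 K, c (Ideal.span {x}) * ((t ^ 2 * bessel (Ideal.absNorm (Ideal.span {x}) *
    (2 * Real.pi * t / ‖σ δ‖) ^ 2) : ℝ) : ℂ) * addChar (σ δ) (σ x * z)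

/-- The group `Λ` generated by the values of the primitive `Φ` at the cusps `x/m`, `m ≠ 0` prime to the level (that is,
by the limits of `Φ(x/m, t)` for `t → 0`). -/
def Lam (σ : K →+* ℂ) (δ : K) (n : 𝓞 K) (c : Ideal (𝓞 K) → ℂ) : AddSubgroup ℂ :=
  AddSubgroup.closure {z | ∃ x m : 𝓞 K, m ≠ 0 ∧ IsCoprime m n ∧
    Tendsto (fun t => primitive σ δ c (σ x / σ m) t) (𝓝[>] 0) (𝓝 z)}

/-- The numbers `c(I)` are the Hecke eigenvalues of a Bianchi newform `f` of weight two, level `(n)` and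
trivial character over `K`, with rational eigenvalues: they satisfy `c(𝓞) = 1`, the (trivial) bound `c(I) = O(N(I))`
and the Hecke relations `c(v I) = c(v) c(I)` for `v ∤ I`, `c(v² I) = c(v) c(v I) - N(v) c(I)` for the primes `v ∤ n`, and
`c(v I) = c(v) c(I)` for `v ∣ n`; the differential `dΦ` of the function `Φ` with the coefficients `c` is
invariant under `Γ₀(n)`, that is, `Φ(γ P) - Φ(P)` is a constant for every `γ ∈ Γ₀(n)`; `dΦ` is an
eigenform, with the eigenvalue `±1`, of the Fricke involution `W = (0, -1; n, 0)`; and the group `Λ` of the values of `Φ` at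
cusps is cyclic (this is so for rational eigenvalues, by multiplicity one and the theorem of Manin, Drinfeld and
Kurčanov: the quotient of `H₁(Γ₀(n), cusps; ℤ)` which belongs to `f` has rank one). -/
structure IsNewform (σ : K →+* ℂ) (δ : K) (n : 𝓞 K) (c : Ideal (𝓞 K) → ℂ) : Prop where
  level : n ≠ 0
  zero : c ⊥ = 0
  one : c ⊤ = 1
  bound : ∃ C : ℝ, ∀ I, ‖c I‖ ≤ C * Ideal.absNorm I
  good : ∀ v : HeightOneSpectrum (𝓞 K), n ∉ v.asIdeal → ∀ I,
    (¬ v.asIdeal ∣ I → c (v.asIdeal * I) = c v.asIdeal * c I) ∧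
    c (v.asIdeal * (v.asIdeal * I)) = c v.asIdeal * c (v.asIdeal * I) -
      Ideal.absNorm v.asIdeal * c I
  bad : ∀ v : HeightOneSpectrum (𝓞 K), n ∈ v.asIdeal → ∀ I,
    c (v.asIdeal * I) = c v.asIdeal * c I
  invariant : ∃ κ : SpecialLinearGroup (Fin 2) (𝓞 K) → ℂ,
    ∀ γ : SpecialLinearGroup (Fin 2) (𝓞 K), n ∣ γ.1 1 0 → ∀ (z : ℂ) (t : ℝ), 0 < t →
      primitive σ δ c (actZ (σ (γ.1 0 0)) (σ (γ.1 0 1)) (σ (γ.1 1 0)) (σ (γ.1 1 1)) z t)
        (actT (σ (γ.1 1 0)) (σ (γ.1 1 1)) z t) = primitive σ δ c z t + κ γ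
  fricke : ∃ w κ : ℂ, w * w = 1 ∧ ∀ (z : ℂ) (t : ℝ), 0 < t →
    primitive σ δ c (actZ 0 (-1) (σ n) 0 z t) (‖σ n‖ * actT (σ n) 0 z t) =
      -w * primitive σ δ c z t + κ
  cyclic : ∃ ω ∈ Lam σ δ n c, ∀ l ∈ Lam σ δ n c, ∃ j : ℤ, l = j * ω

/-- The number of the affine points of `y² = x³ + a x + b` over the residue field of `v`. -/
noncomputable def points (a b : 𝓞 K) (v : HeightOneSpectrum (𝓞 K)) : ℕ :=
  Nat.card {x : (𝓞 K ⧸ v.asIdeal) × (𝓞 K ⧸ v.asIdeal) //
    x.2 ^ 2 = x.1 ^ 3 + (Ideal.Quotient.mk v.asIdeal a) * x.1 + (Ideal.Quotient.mk v.asIdeal b)}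

/-- `f` is the newform of `E : y² = x³ + a x + b`: for `v ∤ 2(4a³ + 27b²)` (so that `E` has good reduction at `v`)
the level is prime to `v` and `c(v) = N(v) + 1 - #E(𝓞/v)`. -/
def IsNewformOf (a b n : 𝓞 K) (c : Ideal (𝓞 K) → ℂ) : Prop :=
  ∀ v : HeightOneSpectrum (𝓞 K), 2 * (4 * a ^ 3 + 27 * b ^ 2) ∉ v.asIdeal →
    n ∉ v.asIdeal ∧ c v.asIdeal = (Ideal.absNorm v.asIdeal : ℂ) - points a b v

section selmer
variable {L : Type} [Field L] [NumberField L] [Algebra K L]

/-- `L = K(θ)` is the cubic field of `E`: `θ³ + a θ + b = 0`, and every element of `L` is `u + v θ + w θ²` for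
unique `u, v, w ∈ K`.  So `x³ + a x + b` is irreducible over `K`, that is, `E(K)[2] = 0`. -/
structure IsCubicField (a b : 𝓞 K) (θ : L) : Prop where
  root : θ ^ 3 + algebraMap K L a * θ + algebraMap K L b = 0
  basis : ∀ β : L, ∃! t : K × K × K,
    β = algebraMap K L t.1 + algebraMap K L t.2.1 * θ + algebraMap K L t.2.2 * θ ^ 2

/-- The class of `α` in `(K_v ⊗ L)^×` modulo squares is in the group generated by the images of the points
`(x, y)`, `y ≠ 0`, of `E(K_v)` under the Kummer map `(x, y) ↦ x - θ`.  (This group is the image of `E(K_v)/2E(K_v)`, as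
the map is a homomorphism and all classes contain points with `y ≠ 0`.) -/
def LocalCondition (a b : 𝓞 K) (θ : L) (v : HeightOneSpectrum (𝓞 K)) (α : L) : Prop :=
  ∃ s : List (v.adicCompletion K),
    (∀ x ∈ s, ∃ y : v.adicCompletion K, y ≠ 0 ∧
      y ^ 2 = x ^ 3 + algebraMap K (v.adicCompletion K) a * x +
        algebraMap K (v.adicCompletion K) b) ∧
    IsSquare (((1 : v.adicCompletion K) ⊗ₜ[K] α) *
      (s.map fun x => x ⊗ₜ[K] (1 : L) - 1 ⊗ₜ[K] θ).prod)

/-- The `2`-Selmer group of `E/K` is trivial.  As `E(K)[2] = 0` and `K` has no real places, it is the group of the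
classes of `α ∈ L^×` modulo squares such that the norm of `α` is a square, `w(α)` is even for all places
`w ∤ 2(4a³ + 27b²)` of `L`, and `α` satisfies the local conditions at the places `v ∣ 2(4a³ + 27b²)` of `K`. -/
def TrivialSelmer (a b : 𝓞 K) (θ : L) : Prop :=
  ∀ α : L, α ≠ 0 → IsSquare (Algebra.norm K α) →
    (∀ w : HeightOneSpectrum (𝓞 L), algebraMap (𝓞 K) (𝓞 L) (2 * (4 * a ^ 3 + 27 * b ^ 2)) ∉
      w.asIdeal → IsSquare (w.valuation L α)) →
    (∀ v : HeightOneSpectrum (𝓞 K), 2 * (4 * a ^ 3 + 27 * b ^ 2) ∈ v.asIdeal →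
      LocalCondition a b θ v α) → IsSquare α

end selmer

/-- The admissible places: `v ∤ 2(4a³ + 27b²)`, and `x³ + a x + b` has no root modulo `v`. -/
def Admissible (a b : 𝓞 K) (v : HeightOneSpectrum (𝓞 K)) : Prop :=
  2 * (4 * a ^ 3 + 27 * b ^ 2) ∉ v.asIdeal ∧ ∀ x : 𝓞 K, x ^ 3 + a * x + b ∉ v.asIdeal

/-- `χ` is a character of `K` of `2`-power order and of conductor `∏_{v ∈ T} v`, as a function on `𝓞` (`K` has class
number one): a primitive character modulo the product of the `v ∈ T`, trivial on the units, and zero on the `x` which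
are not prime to the conductor. -/
structure IsCharacter (T : Finset (HeightOneSpectrum (𝓞 K))) (χ : 𝓞 K → ℂ) : Prop where
  one : χ 1 = 1
  mul : ∀ x y, χ (x * y) = χ x * χ y
  zero : ∀ x, χ x = 0 ↔ ∃ v ∈ T, x ∈ v.asIdeal
  periodic : ∀ x y, (∀ v ∈ T, x - y ∈ v.asIdeal) → χ x = χ y
  units : ∀ u, IsUnit u → χ u = 1
  primitive : ∀ v ∈ T, ∃ x, (∀ v' ∈ T, v' ≠ v → x - 1 ∈ v'.asIdeal) ∧ χ x ≠ 0 ∧ χ x ≠ 1
  order : ∃ k : ℕ, ∀ x, χ x ≠ 0 → χ x ^ 2 ^ k = 1

open Classical in
/-- The numbers `a_v` of `E`: `N(v) + 1 - #E(𝓞/v)` for `v ∤ 2(4a³ + 27b²)`, and the eigenvalues of `f` for the others. -/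
noncomputable def coeff (a b : 𝓞 K) (c : Ideal (𝓞 K) → ℂ) (v : HeightOneSpectrum (𝓞 K)) : ℂ :=
  if 2 * (4 * a ^ 3 + 27 * b ^ 2) ∈ v.asIdeal then c v.asIdeal
  else (Ideal.absNorm v.asIdeal : ℂ) - points a b v

/-- `χ(v)` is the value of `χ` at a generator of `v`. -/
noncomputable def at' (χ : 𝓞 K → ℂ) (v : HeightOneSpectrum (𝓞 K)) [IsPrincipalIdealRing (𝓞 K)] : ℂ :=
  χ (Submodule.IsPrincipal.generator v.asIdeal)

variable [IsPrincipalIdealRing (𝓞 K)]

open Classical in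
/-- The Euler factor `(1 - a_v χ(v) N(v)^(-s) + χ(v)² N(v)^(1-2s))⁻¹` of `L(E ⊗ χ, s)` at `v`, without the last term if
`v` divides the level. -/
noncomputable def factor (a b n : 𝓞 K) (c : Ideal (𝓞 K) → ℂ) (χ : 𝓞 K → ℂ) (s : ℂ)
    (v : HeightOneSpectrum (𝓞 K)) : ℂ :=
  (1 - coeff a b c v * at' χ v * (Ideal.absNorm v.asIdeal : ℂ) ^ (-s) +
    (if n ∈ v.asIdeal then 0 else at' χ v ^ 2 * (Ideal.absNorm v.asIdeal : ℂ) ^ (1 - 2 * s)))⁻¹

/-- `G` is the `L`-function of `E ⊗ χ`, continued to an entire function. -/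
def IsLFunction (a b n : 𝓞 K) (c : Ideal (𝓞 K) → ℂ) (χ : 𝓞 K → ℂ) (G : ℂ → ℂ) : Prop :=
  Differentiable ℂ G ∧ ∀ s : ℂ, 2 < s.re → HasProd (factor a b n c χ s) (G s)

section extension

variable (F : Type) [Field F] [NumberField F] [Algebra K F]

/-- The places `u` of `F` above `v`. -/
def Above (v : HeightOneSpectrum (𝓞 K)) : Type :=
  {u : HeightOneSpectrum (𝓞 F) // u.asIdeal.comap (algebraMap (𝓞 K) (𝓞 F)) = v.asIdeal}

omit [IsPrincipalIdealRing (𝓞 K)] in
/-- `F/K` is a finite Galois extension of `2`-power degree, unramified outside of the admissible places of `K`, and the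
places `v ∣ 2(4a³ + 27b²)` split completely in `F` (there is an embedding of `F` in `K_v`). -/
structure IsTwoExtension (a b : 𝓞 K) : Prop where
  galois : IsGalois K F
  degree : ∃ k : ℕ, Module.finrank K F = 2 ^ k
  split : ∀ v : HeightOneSpectrum (𝓞 K), 2 * (4 * a ^ 3 + 27 * b ^ 2) ∈ v.asIdeal →
    Nonempty (F →ₐ[K] v.adicCompletion K)
  unramified : ∀ v : HeightOneSpectrum (𝓞 K), 2 * (4 * a ^ 3 + 27 * b ^ 2) ∉ v.asIdeal →
    ¬ Admissible a b v → ∀ u : Above F v, ∀ x : K,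
      u.1.valuation F (algebraMap K F x) = v.valuation K x

omit [IsPrincipalIdealRing (𝓞 K)] in
open Classical in
/-- The Euler factor of `L(E/F, s)` at a place `u` of `F` of norm `Q = N(v)^f` above `v`, unramified over `v` or with good
reduction: with `(1 - α N(v)^(-s)) (1 - β N(v)^(-s))` the polynomial of `E` at `v` it is `((1 - α^f Q^(-s)) (1 - β^f Q^(-s)))⁻¹`, as the
Frobenius element of `u` is the power `f` of that of `v`. -/
noncomputable def factorAbove (a b n : 𝓞 K) (c : Ideal (𝓞 K) → ℂ) (v : HeightOneSpectrum (𝓞 K))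
    (Q : ℕ) (s : ℂ) : ℂ :=
  if n ∈ v.asIdeal then (1 - coeff a b c v ^ (Nat.log (Ideal.absNorm v.asIdeal) Q) *
    (Q : ℂ) ^ (-s))⁻¹
  else (1 - lucas (coeff a b c v) (Ideal.absNorm v.asIdeal)
    (Nat.log (Ideal.absNorm v.asIdeal) Q) * (Q : ℂ) ^ (-s) + (Q : ℂ) ^ (1 - 2 * s))⁻¹

omit [IsPrincipalIdealRing (𝓞 K)] in
/-- `G` is `L(E/F, s)`, continued to an entire function: for `Re s > 2` it is the product, over the places `v` of `K`, of the
products of the Euler factors of `E/F` at the places above `v`. -/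
def IsLFunctionOver (a b n : 𝓞 K) (c : Ideal (𝓞 K) → ℂ) (G : ℂ → ℂ) : Prop :=
  Differentiable ℂ G ∧ ∀ s : ℂ, 2 < s.re →
    HasProd (fun v : HeightOneSpectrum (𝓞 K) =>
      ∏ᶠ u : Above F v, factorAbove a b n c v (Ideal.absNorm u.1.asIdeal) s) (G s)

/-- The curve `E` over `F`. -/
def curve (a b : 𝓞 K) : WeierstrassCurve F :=
  ⟨0, 0, 0, algebraMap K F a, algebraMap K F b⟩


end extension

section group

variable {𝒢 : Type} [CommGroup 𝒢]

omit [IsPrincipalIdealRing (𝓞 K)] in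
/-- `𝒢` is a group of characters `χ_g` of `K` of exponent `2^e`, of conductors `∏_{v ∈ T_g} v` which are products of
different places, admissible for all the curves `E_i : y² = x³ + a_i x + b_i`: the product `χ_g χ_h` is the
primitive character `χ_(gh)`. -/
structure IsCharacterGroup {m : ℕ} (a b : Fin m → 𝓞 K) (e : ℕ)
    (T : 𝒢 → Finset (HeightOneSpectrum (𝓞 K))) (χ : 𝒢 → 𝓞 K → ℂ) : Prop where
  character : ∀ g, IsCharacter (T g) (χ g)
  admissible : ∀ g, ∀ v ∈ T g, ∀ i, Admissible (a i) (b i) v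
  injective : Function.Injective χ
  product : ∀ g h x, χ g x ≠ 0 → χ h x ≠ 0 → χ (g * h) x = χ g x * χ h x
  exponent : ∀ g : 𝒢, g ^ 2 ^ e = 1

/-- `F` is the class field of the finite group `𝓕` of characters `χ_g`: the order of `𝓕` is the degree of `F`, and
the decomposition law holds: if `f_v` is the number of the different values `χ_g(v) ≠ 0`, `g ∈ 𝓕`, then the places of
`F` above `v` have norm `N(v)^(f_v)`, and their number is `1/f_v` times the number of the characters `χ_g`, `g ∈ 𝓕`,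
unramified at `v`. -/
structure IsClassField (F : Type) [Field F] [NumberField F] [Algebra K F] (χ : 𝒢 → 𝓞 K → ℂ)
    (𝓕 : Subgroup 𝒢) : Prop where
  order : Nat.card 𝓕 = Module.finrank K F
  norm : ∀ (v : HeightOneSpectrum (𝓞 K)) (u : Above F v),
    Ideal.absNorm u.1.asIdeal =
      Ideal.absNorm v.asIdeal ^ Nat.card {z : ℂ // z ≠ 0 ∧ ∃ g ∈ 𝓕, at' (χ g) v = z}
  number : ∀ v : HeightOneSpectrum (𝓞 K),
    Nat.card (Above F v) * Nat.card {z : ℂ // z ≠ 0 ∧ ∃ g ∈ 𝓕, at' (χ g) v = z} =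
      Nat.card {g : 𝒢 // g ∈ 𝓕 ∧ at' (χ g) v ≠ 0}

end group

/-- Let `z = L(E/K, 1)` and let `χ` be a character of conductor `∏_{v ∈ T} v`.  The function `L(E ⊗ χ, s)` is entire, its
value at `s = 1` is not zero, and `k τ L(E ⊗ χ, 1) = x z` with an odd integer `k`, an algebraic integer `τ` with
`|τ|² = N(cond χ)`, and an algebraic integer `x` prime to `2`. -/
def TwoPart (a b n : 𝓞 K) (c : Ideal (𝓞 K) → ℂ) (z : ℂ) (T : Finset (HeightOneSpectrum (𝓞 K)))
    (χ : 𝓞 K → ℂ) : Prop :=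
  ∃ (G : ℂ → ℂ) (τ x : integralClosure ℤ ℂ) (k : ℤ), IsLFunction a b n c χ G ∧ G 1 ≠ 0 ∧ Odd k ∧
    ‖(τ : ℂ)‖ ^ 2 = ∏ v ∈ T, (Ideal.absNorm v.asIdeal : ℝ) ∧ IsCoprime x 2 ∧ k * τ * G 1 = x * z

/-- Let `z = L(E/K, 1)` and let `F` be the class field of the finite group `𝓕` of characters `χ_g` of conductors
`∏_{v ∈ T_g} v`.  The function `L(E/F, s)` is entire, its value at `s = 1` is not zero, and `k τ L(E/F, 1) = x z^[F:K]`
with an odd integer `k`, an algebraic integer `τ` for which `|τ|²` is the product of the norms of the conductors (that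
is, the norm of the discriminant of `F/K`), and an algebraic integer `x` prime to `2`. -/
def TwoPartOver {𝒢 : Type} [CommGroup 𝒢] (F : Type) [Field F] [NumberField F] [Algebra K F]
    (a b n : 𝓞 K) (c : Ideal (𝓞 K) → ℂ) (z : ℂ) (T : 𝒢 → Finset (HeightOneSpectrum (𝓞 K)))
    (𝓕 : Subgroup 𝒢) : Prop :=
  ∃ (G : ℂ → ℂ) (τ x : integralClosure ℤ ℂ) (k : ℤ), IsLFunctionOver F a b n c G ∧ G 1 ≠ 0 ∧
    Odd k ∧ ‖(τ : ℂ)‖ ^ 2 = ∏ᶠ g : 𝓕, ∏ v ∈ T g, (Ideal.absNorm v.asIdeal : ℝ) ∧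
    IsCoprime x 2 ∧ k * τ * G 1 = x * z ^ Module.finrank K F

/-- For all `g ∈ ℋ` the statement `TwoPart` on `L(E ⊗ χ_g, 1)` holds; and for all the number fields `F` which are the class
field of a finite subgroup of `ℋ`, and in which the places `v ∣ 2(4a³ + 27b²)` split completely, the statement
`TwoPartOver` on `L(E/F, 1)` holds, `E(F)` is finite of odd order, and `Ш(E/F)` has no elements of `2`-power order. -/
def Exact {𝒢 : Type} [CommGroup 𝒢] (a b n : 𝓞 K) (c : Ideal (𝓞 K) → ℂ) (z : ℂ)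
    (T : 𝒢 → Finset (HeightOneSpectrum (𝓞 K))) (χ : 𝒢 → 𝓞 K → ℂ) (ℋ : Subgroup 𝒢) : Prop :=
  (∀ g ∈ ℋ, TwoPart a b n c z (T g) (χ g)) ∧
  ∀ (F : Type) [Field F] [NumberField F] [Algebra K F] (𝓕 : Subgroup 𝒢), 𝓕 ≤ ℋ → Finite 𝓕 →
    IsTwoExtension F a b → IsClassField F χ 𝓕 →
    TwoPartOver F a b n c z T 𝓕 ∧ Finite (curve F a b).toAffine.Point ∧
      Odd (Nat.card (curve F a b).toAffine.Point) ∧
      ∀ (k : ℕ) (x : Pool.Agent.TH841.NF.D.Sha (curve F a b)), (2 ^ k : ℕ) • x = 0 → x = 0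

end field

/-- Let `K` be an imaginary quadratic field of class number one, `E_i : y² = x³ + a_i x + b_i`, `i = 1, …, m`, elliptic
curves over `K` with `E_i(K)[2] = 0` and with the Bianchi newforms `f_i`, and suppose that `z_i = L(E_i/K, 1) ≠ 0` and
that the `2`-Selmer groups of the `E_i/K` are trivial.  For all `e` and `d` there is a function `B` with the following
properties.  Let `𝒢` be a group, finite or infinite, of characters of `K` of exponent `2^e` whose conductors are products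
of different admissible places, and let `Δ` be a group of at most `d` automorphisms of `𝒢`.
(1) For every sequence `g_0, g_1, …` in `𝒢` there are nonempty sets `S_k ⊆ [B(k), B(k + 1))` such that the products
`∏_{j ∈ S_k} g_j` are in a `Δ`-stable subgroup `ℋ` of `𝒢` with the property `Exact` for all the `E_i`.
(2) If `𝒢` is infinite it has an infinite `Δ`-stable subgroup `ℋ` with this property.
(3) If `𝒢` has more than `2^(e B(t))` elements it has a `Δ`-stable subgroup `ℋ` of at least `t` elements with this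
property.
(4) There are at most `2^B(1)` elements `k` of `𝒢` such that for every `g ∈ 𝒢` the statement `TwoPart` on the values
`L(E_i ⊗ χ_(gk), 1)` holds for all `i` and one of these `k`. -/
theorem result (K : Type) [Field K] [NumberField K] [IsPrincipalIdealRing (𝓞 K)] (σ : K →+* ℂ)
    (δ : K) (hK : IsFieldData K σ δ) {m : ℕ} (a b n : Fin m → 𝓞 K)
    (hΔ : ∀ i, 4 * a i ^ 3 + 27 * b i ^ 2 ≠ 0) (c : Fin m → Ideal (𝓞 K) → ℂ)
    (hf : ∀ i, IsNewform σ δ (n i) (c i)) (hE : ∀ i, IsNewformOf (a i) (b i) (n i) (c i))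
    (z : Fin m → ℂ)
    (hL : ∀ i, ∃ G : ℂ → ℂ, IsLFunction (a i) (b i) (n i) (c i) (fun _ => 1) G ∧ G 1 = z i)
    (hz : ∀ i, z i ≠ 0)
    (L : Fin m → Type) [∀ i, Field (L i)] [∀ i, NumberField (L i)] [∀ i, Algebra K (L i)]
    (θ : ∀ i, L i) (hθ : ∀ i, IsCubicField (a i) (b i) (θ i))
    (hS : ∀ i, TrivialSelmer (a i) (b i) (θ i)) (e d : ℕ) :
    ∃ B : ℕ → ℕ, ∀ (𝒢 : Type) [CommGroup 𝒢] (T : 𝒢 → Finset (HeightOneSpectrum (𝓞 K)))
      (χ : 𝒢 → 𝓞 K → ℂ), IsCharacterGroup a b e T χ →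
      ∀ Δ : Subgroup (MulAut 𝒢), Finite Δ → Nat.card Δ ≤ d →
      (∀ g : ℕ → 𝒢, ∃ S : ℕ → Finset ℕ,
        (∀ k, (S k).Nonempty ∧ ∀ j ∈ S k, B k ≤ j ∧ j < B (k + 1)) ∧
        ∃ ℋ : Subgroup 𝒢, (∀ k, ∏ j ∈ S k, g j ∈ ℋ) ∧ (∀ s ∈ Δ, ∀ x ∈ ℋ, s x ∈ ℋ) ∧
          ∀ i, Exact (a i) (b i) (n i) (c i) (z i) T χ ℋ) ∧
      (Infinite 𝒢 → ∃ ℋ : Subgroup 𝒢, Infinite ℋ ∧ (∀ s ∈ Δ, ∀ x ∈ ℋ, s x ∈ ℋ) ∧
        ∀ i, Exact (a i) (b i) (n i) (c i) (z i) T χ ℋ) ∧
      (∀ t : ℕ, 2 ^ (e * B t) < Nat.card 𝒢 → ∃ ℋ : Subgroup 𝒢, t ≤ Nat.card ℋ ∧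
        (∀ s ∈ Δ, ∀ x ∈ ℋ, s x ∈ ℋ) ∧ ∀ i, Exact (a i) (b i) (n i) (c i) (z i) T χ ℋ) ∧
      ∃ 𝒦 : Finset 𝒢, 𝒦.card ≤ 2 ^ B 1 ∧ ∀ g : 𝒢, ∃ k ∈ 𝒦, ∀ i,
        TwoPart (a i) (b i) (n i) (c i) (z i) (T (g * k)) (χ (g * k)) := by
  classical
  have h : K4H55.BI.IQ K σ δ := ⟨hK.quadratic, hK.imaginary, inferInstance, hK.different⟩
  have hf' : ∀ i, K4H55.BI.BF σ δ (n i) (c i) := fun i => ⟨(hf i).level, (hf i).zero, (hf i).one,
    (hf i).bound, (hf i).good, (hf i).bad, (hf i).invariant, (hf i).fricke⟩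
  have hcub : ∀ i, K4H55.BD.Cub K (θ i) := by
    intro i
    refine ⟨fun p q r h0 => ?_, fun β => ?_⟩
    · obtain ⟨t, ht, hu⟩ := (hθ i).basis 0
      have h1 := hu (p, q, r) h0.symm
      have h2 := hu (0, 0, 0) (by simp)
      have h3 := h1.trans h2.symm
      simp only [Prod.mk.injEq] at h3
      exact h3
    · obtain ⟨t, ht, -⟩ := (hθ i).basis β
      exact ⟨t.1, t.2.1, t.2.2, ht⟩
  have hcoeff : ∀ i, ∀ v : HeightOneSpectrum (𝓞 K),
      coeff (a i) (b i) (c i) v = c i v.asIdeal := by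
    intro i v
    unfold coeff
    split_ifs with h1
    · rfl
    · exact (hE i v h1).2.symm
  have hluc : ∀ (t q : ℂ) (j : ℕ), lucas t q j = K4H55.CX.luc t q j := by
    intro t q j
    induction j using Nat.twoStepInduction with
    | zero => rfl
    | one => rfl
    | more j h1 h2 => rw [lucas, K4H55.CX.luc, h1, h2]
  have hadm : ∀ i, ∀ v, Admissible (a i) (b i) v → H92.Ad (n i) (c i) v := by
    intro i v hv
    have h2 : (2 : 𝓞 K) ∉ v.asIdeal := fun h2 => hv.1 (v.asIdeal.mul_mem_right _ h2)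
    refine ⟨h2, (hE i v hv.1).1, (Ideal.absNorm v.asIdeal : ℤ) - points (a i) (b i) v, ?_, ?_⟩
    · rw [(hE i v hv.1).2]
      push_cast
      ring
    · obtain ⟨k, hk⟩ := K4H55.BD.pv_even (a := a i) (b := b i) h2 hv.2
      have hk' : points (a i) (b i) v = 2 * k := hk
      have h6 := K4H55.BM.norm_odd h2
      rw [Nat.odd_iff] at h6
      omega
  have hfac : ∀ i, ∀ (χ : 𝓞 K → ℂ) (s : ℂ),
      factor (a i) (b i) (n i) (c i) χ s = K4H55.CX.efx (n i) (c i) χ s := by
    intro i χ s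
    funext v
    unfold factor K4H55.CX.efx
    rw [hcoeff]
    rfl
  have hch : ∀ (T : Finset (HeightOneSpectrum (𝓞 K))) (χ : 𝓞 K → ℂ), IsCharacter T χ →
      K4H55.CX.CH T χ := fun T χ h1 =>
    ⟨h1.one, h1.mul, h1.zero, h1.periodic, h1.units, h1.primitive, h1.order⟩
  have hz0 : ∀ i, K4H55.BI.fv (K4H55.BI.ordK h) (fun x => c i (Ideal.span {x})) 0 ≠ 0 := by
    intro i
    obtain ⟨G, ⟨g1, g2⟩, g3⟩ := hL i
    exact H92.fv_ne h (hf' i) g1 (fun s hs => by rw [← hfac]; exact g2 s hs)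
      (by rw [g3]; exact hz i)
  -- the central values
  choose ω hω' hω using fun i => (hf i).cyclic
  choose z₀ hz₀' hz₀ using fun i => K4H55.BK.exists_z0 h (hf' i)
  have hzz : ∀ i, (2 * Real.pi / ‖σ δ‖) ^ 2 / (Nat.card (𝓞 K)ˣ : ℂ) * z₀ i = z i := by
    intro i
    obtain ⟨G, ⟨g1, g2⟩, g3⟩ := hL i
    obtain ⟨G', g4, g5, g6⟩ := K4H55.CX.chr_one h (hf' i) (hz₀ i)
    have h1 := H92.eq_of_prod g1 g4 (fun s hs => by rw [← hfac]; exact g2 s hs) g5
    rw [← g3, h1, g6]
  obtain ⟨B, hB⟩ := H92.ramP_all (b := e) (d := d) (fun i => H92.Ad (n i) (c i))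
    (fun i T χ => H92.Cg h (c i) T χ)
    (fun i => H92.bia_cong h (hf' i) (hz0 i) (hω i) (hω' i) e d)
  refine ⟨fun k => B k, fun 𝒢 _ T χ hχ Δ hΔf hΔd => ?_⟩
  have hCG : H92.CG T χ := ⟨fun g => hch _ _ (hχ.character g), hχ.product⟩
  -- the automorphisms
  obtain ⟨τ, i0, hτ0, hτΔ⟩ : ∃ (τ : Fin d → 𝒢 →* 𝒢) (i0 : Fin d), (∀ x, τ i0 x = x) ∧
      ∀ s ∈ Δ, ∀ i, ∃ j, ∀ x, (s : 𝒢 ≃* 𝒢) (τ i x) = τ j x := by
    have : Fintype Δ := Fintype.ofFinite Δ
    have hpos : 0 < Nat.card Δ := Nat.card_pos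
    obtain ⟨f, hf⟩ : ∃ f : Fin d → Δ, Function.Surjective f := by
      have e1 : Δ ≃ Fin (Nat.card Δ) := Finite.equivFin Δ
      refine ⟨fun i => if hi : (i : ℕ) < Nat.card Δ then e1.symm ⟨i, hi⟩ else 1, fun s => ?_⟩
      refine ⟨⟨(e1 s : ℕ), lt_of_lt_of_le (e1 s).2 hΔd⟩, ?_⟩
      beta_reduce
      rw [dif_pos (e1 s).2]
      exact e1.symm_apply_apply s
    obtain ⟨i0, hi0⟩ := hf 1
    refine ⟨fun i => ((f i : MulAut 𝒢) : 𝒢 ≃* 𝒢).toMonoidHom, i0, fun x => ?_, fun s hs i => ?_⟩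
    · show (f i0 : MulAut 𝒢) x = x
      rw [hi0]
      rfl
    · obtain ⟨j, hj⟩ := hf (⟨s, hs⟩ * f i)
      refine ⟨j, fun x => ?_⟩
      show s ((f i : MulAut 𝒢) x) = (f j : MulAut 𝒢) x
      rw [hj]
      rfl
  -- the values
  have hnv : ∀ x : 𝒢, ∀ i, H92.Cg h (c i) (T x) (χ x) →
      TwoPart (a i) (b i) (n i) (c i) (z i) (T x) (χ x) := by
    intro x i hx
    obtain ⟨G, τ, X, k, g1, g2, g3, g4, g5, g6⟩ := H92.cg_val h (hf' i) (hCG.ch x)
      (fun v hv => hadm i v (hχ.admissible x v hv i)) (hz₀ i) hx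
    rw [hzz] at g6
    refine ⟨G, τ, X, k, ⟨g1, fun s hs => by rw [hfac]; exact g2 s hs⟩, ?_, g3, g4, g5, g6⟩
    refine K4H55.CX.ne_of_unit (m := 1) (τ := τ) (k := k) g5 (hz i) ?_
    rw [pow_one]
    exact g6
  -- the property of the subgroups
  have hRZ : ∀ ℋ : Subgroup 𝒢,
      (∀ x ∈ ℋ, ∀ i, H92.Cg h (c i) (T x) (χ x)) →
      ∀ i, Exact (a i) (b i) (n i) (c i) (z i) T χ ℋ := by
    intro ℋ hℋ i
    have hne := fun (g : 𝒢) (hg : g ∈ ℋ) => hnv g i (hℋ g hg i)
    refine ⟨hne, fun F _ _ _ 𝓕 h𝓕 hfin hF hcf => ?_⟩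
    · have hG := hF.galois
      obtain ⟨k, hk⟩ := hF.degree
      obtain ⟨h1, h2, h3⟩ := K4H55.CX.fin_up (F := F) (hΔ i) (hcub i) (hθ i).root (hS i) hk
        hF.split (fun u hu => by
          by_cases h3 : ∀ X : 𝓞 K, X ^ 3 + a i * X + b i ∉ (K4H55.BD.low (K := K) u).asIdeal
          · exact Or.inl h3
          · exact Or.inr fun x => hF.unramified _ hu (fun h4 => h3 h4.2) ⟨u, rfl⟩ x)
      refine ⟨?_, h1.1, h1.2, h2⟩
      -- the L-function
      have : Fintype 𝓕 := Fintype.ofFinite 𝓕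
      choose G τ X k g0 g3 g4 g5 g6 g7 using fun g : 𝓕 => hne g (h𝓕 g.2)
      have g1 := fun g => (g0 g).1
      have g2 : ∀ (g : 𝓕) (s : ℂ), 2 < s.re →
          HasProd (K4H55.CX.efx (n i) (c i) (χ g) s) (G g s) := by
        intro g s hs
        rw [← hfac]
        exact (g0 g).2 s hs
      have hCF : K4H55.CX.CF (fun g : 𝓕 => T g) (fun g : 𝓕 => χ g) :=
        ⟨fun g => hCG.ch g, fun g g' x h4 h5 => hCG.mul g g' x h4 h5⟩
      have hord : ∀ v : HeightOneSpectrum (𝓞 K),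
          Nat.card {z : ℂ // z ≠ 0 ∧ ∃ g ∈ 𝓕, at' (χ g) v = z} =
            K4H55.CX.ord (fun g : 𝓕 => χ g) (K4H55.BI.gen v) := by
        intro v
        unfold K4H55.CX.ord
        refine Nat.card_congr (Equiv.subtypeEquivRight fun z => ?_)
        constructor
        · rintro ⟨h4, g, hg, h5⟩
          exact ⟨h4, ⟨g, hg⟩, h5⟩
        · rintro ⟨h4, g, h5⟩
          exact ⟨h4, g, g.2, h5⟩
      have hnum : ∀ v : HeightOneSpectrum (𝓞 K),
          Nat.card {g : 𝒢 // g ∈ 𝓕 ∧ at' (χ g) v ≠ 0} =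
            Nat.card {g : 𝓕 // χ g (K4H55.BI.gen v) ≠ 0} := by
        intro v
        refine Nat.card_congr ⟨fun g => ⟨⟨g.1, g.2.1⟩, g.2.2⟩, fun g => ⟨g.1.1, g.1.2, g.2⟩,
          fun g => rfl, fun g => rfl⟩
      have hlaw : K4H55.CX.Law F (fun g : 𝓕 => χ g) := by
        refine ⟨fun v u hu => ?_, fun v => ?_⟩
        · rw [← hord]
          exact hcf.norm v ⟨u, hu⟩
        · rw [← hord, ← hnum]
          exact hcf.number v
      refine ⟨fun s => ∏ g, G g s, ∏ g, τ g, ∏ g, X g, ∏ g, k g,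
        ⟨Differentiable.fun_finsetProd fun g _ => g1 g, fun s hs => ?_⟩,
        Finset.prod_ne_zero_iff.2 fun g _ => g3 g, ?_, ?_, ?_, ?_⟩
      rotate_left
      · exact Finset.prod_induction k Odd (fun a b ha hb => ha.mul hb) odd_one fun g _ => g4 g
      · rw [finprod_eq_prod_of_fintype]
        have e : ((∏ g, τ g : integralClosure ℤ ℂ) : ℂ) = ∏ g, (τ g : ℂ) := by
          push_cast
          rfl
        rw [e, norm_prod, ← Finset.prod_pow]
        exact Finset.prod_congr rfl fun g _ => g5 g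
      · exact IsCoprime.prod_left fun g _ => g6 g
      · have e1 : ((∏ g, τ g : integralClosure ℤ ℂ) : ℂ) = ∏ g, (τ g : ℂ) := by
          push_cast
          rfl
        have e2 : ((∏ g, X g : integralClosure ℤ ℂ) : ℂ) = ∏ g, (X g : ℂ) := by
          push_cast
          rfl
        have e3 : ((∏ g, k g : ℤ) : ℂ) = ∏ g, (k g : ℂ) := by push_cast; rfl
        beta_reduce
        rw [e1, e2, e3, ← Finset.prod_mul_distrib, ← Finset.prod_mul_distrib,
          Finset.prod_congr rfl fun g _ => g7 g, Finset.prod_mul_distrib, Finset.prod_const,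
          Finset.card_univ, ← Nat.card_eq_fintype_card, hcf.order]
      have e1 : ∀ (v : HeightOneSpectrum (𝓞 K)) (Q : ℕ),
          factorAbove (a i) (b i) (n i) (c i) v Q s = K4H55.CX.facF (n i) (c i) v Q s := by
        intro v Q
        unfold factorAbove K4H55.CX.facF
        rw [hcoeff, hluc]
      have e2 : (fun v : HeightOneSpectrum (𝓞 K) =>
          ∏ᶠ u : Above F v, factorAbove (a i) (b i) (n i) (c i) v (Ideal.absNorm u.1.asIdeal) s) =
          fun v => ∏ g : 𝓕, K4H55.CX.efx (n i) (c i) (χ g) s v := by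
        funext v
        simp only [e1]
        exact K4H55.CX.above_prod (n := n i) (c := c i) hCF hlaw v s
      rw [e2]
      exact hasProd_prod fun g _ => g2 g s hs
  have hmain : ∀ g : ℕ → 𝒢, ∃ S : ℕ → Finset ℕ,
      (∀ k, (S k).Nonempty ∧ S k ⊆ Finset.Ico (B k) (B (k + 1))) ∧
      ∃ ℋ : Subgroup 𝒢, Subgroup.closure (Set.range fun k => ∏ j ∈ S k, g j) ≤ ℋ ∧
        (∀ s ∈ Δ, ∀ x ∈ ℋ, s x ∈ ℋ) ∧
        ∀ x ∈ ℋ, ∀ i, H92.Cg h (c i) (T x) (χ x) := by
    intro g
    obtain ⟨S, hS1, hS2⟩ := hB 𝒢 T χ hCG hχ.exponent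
      (fun g v hv i => hadm i v (hχ.admissible g v hv i)) τ g
    exact ⟨S, hS1, H92.clo τ g S, H92.clo_le τ g S i0 hτ0,
      fun s hs x hx => H92.clo_stable τ g S s.toMonoidHom (hτΔ s hs) hx, hS2⟩
  obtain ⟨φ, hφ1, hφ2⟩ := Pool.Agent.Y683.CG.sub_exists (e := 2 ^ e) (by positivity) B
    (⊤ : Subgroup 𝒢) (fun g _ => hχ.exponent g)
  obtain ⟨S, hS1, ℋ, hS2, hS3, hS4⟩ := hmain φ
  obtain ⟨-, h4, h5⟩ := hφ2 S hS1
  refine ⟨fun g => ?_, fun hinf => ⟨ℋ, ?_, hS3, hRZ ℋ hS4⟩, fun t ht => ⟨ℋ, ?_, hS3, hRZ ℋ hS4⟩, ?_⟩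
  · obtain ⟨S, hS1, ℋ, hS2, hS3, hS4⟩ := hmain g
    refine ⟨S, fun k => ⟨(hS1 k).1, fun j hj => Finset.mem_Ico.1 ((hS1 k).2 hj)⟩, ℋ,
      fun k => hS2 (Subgroup.subset_closure ⟨k, rfl⟩), hS3, hRZ ℋ hS4⟩
  · have h6 := h4 (by
      have e1 := (Subgroup.topEquiv (G := 𝒢)).toEquiv
      exact e1.infinite_iff.2 hinf)
    exact Infinite.of_injective _ (Subgroup.inclusion_injective hS2)
  · have h7 : 0 < Nat.card 𝒢 := lt_of_le_of_lt (Nat.zero_le _) ht
    have hfin : Finite 𝒢 := Nat.finite_of_card_ne_zero h7.ne'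
    refine (h5 t ?_).trans (Nat.card_le_card_of_injective _ (Subgroup.inclusion_injective hS2))
    rw [Subgroup.card_top, ← pow_mul]
    exact ht
  · obtain ⟨𝒦, hK1, hK2⟩ := H92.syndetic (fun x : 𝒢 =>
      ∀ i, H92.Cg h (c i) (T x) (χ x)) (B 1) (fun g => by
        obtain ⟨S, hS1, ℋ, hS2, -, hS4⟩ := hmain g
        refine ⟨S 0, (hS1 0).1, fun j hj => ?_, hS4 _ (hS2 (Subgroup.subset_closure ⟨0, rfl⟩))⟩
        exact Finset.mem_range.2 (Finset.mem_Ico.1 ((hS1 0).2 hj)).2)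
    refine ⟨𝒦, hK1, fun g => ?_⟩
    obtain ⟨k, hk, hk2⟩ := hK2 g
    exact ⟨k, hk, fun i => hnv (g * k) i (hk2 i)⟩

end Pool.Agent.Results.MP_1a91b9_nt.BianchiExactRamsey
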